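import Mathlib

/-!
Weights on bases: the definitions and the statements.
-/

set_option autoImplicit false

namespace Pool.Agent.H583_U

/-- the number of the occurrences of the index `i` in the list `c` of bases -/
def cnt {N d n : ℕ} (c : Fin n → Fin d → Fin N) (i : Fin N) : ℕ :=
  ∑ t, ∑ s, if c t s = i then 1 else 0

/-- the levels of the weights -/
def S_levels : Prop :=
  ∀ (N d : ℕ) (Bs : Set (Fin d → Fin N)), Bs.Nonempty →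
    ∀ Dep : (Fin d → Fin N) → Finset (Fin N) → Fin N → Prop,
    (∀ c ∈ Bs, ∀ (S : Finset (Fin N)) (i : Fin N), ¬ Dep c S i →
      ∃ s, c s ∉ S ∧ Function.update c s i ∈ Bs) →
    (∀ b ∈ Bs, ∀ c ∈ Bs, ∀ s, ¬ Dep c ∅ (b s)) →
    ∀ α : Fin N → ℕ, (∀ i, 0 < α i) →
      ∃ C : ℝ, 0 ≤ C ∧ ∀ W : ℝ, ∃ (n : ℕ) (c : Fin n → Fin d → Fin N), 0 < n ∧
        (∀ t, c t ∈ Bs) ∧ (∀ b ∈ Bs, ∀ s, W * α (b s) ≤ cnt c (b s)) ∧
        ∀ θ : ℝ, ∃ S : Finset (Fin N), (∀ i, (cnt c i : ℝ) ≤ θ * α i → i ∈ S) ∧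
          (∀ i ∈ S, (cnt c i : ℝ) ≤ (θ + C) * α i) ∧ ∀ t, ∀ i ∈ S, Dep (c t) S i

end Pool.Agent.H583_U
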