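import Pool.Agent.H583_GP.Eta

/-!
The orders of wedge products at places which are not trivial on a subfield.
-/

set_option autoImplicit false
set_option linter.unusedSectionVars false

open FF Pool.Agent.W602.GT Pool.Agent.W603.LV Pool.Agent.W602.Cov.G

namespace Pool.Agent.H583_U

open Pool.Agent.H583_GP (eta eta_ge)

variable {L : Type} [Field L] [Algebra ℂ L] {N d : ℕ}

theorem der_aeval {ι : Type} [Fintype ι] [DecidableEq ι] (D : Derivation ℂ L L) (u : ι → L)
    (G : MvPolynomial ι ℂ) : D (MvPolynomial.aeval u G) =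
      ∑ s, MvPolynomial.aeval u (MvPolynomial.pderiv s G) * D (u s) := by
  induction G using MvPolynomial.induction_on with
  | C a =>
    simp
  | add p q hp hq =>
    simp only [map_add, hp, hq, add_mul, Finset.sum_add_distrib]
  | mul_X p i hp =>
    have h1 : ∀ s, MvPolynomial.aeval u (MvPolynomial.pderiv s (p * MvPolynomial.X i)) * D (u s) =
        u i * (MvPolynomial.aeval u (MvPolynomial.pderiv s p) * D (u s)) +
          (if s = i then MvPolynomial.aeval u p * D (u s) else 0) := by
      intro s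
      rw [MvPolynomial.pderiv_mul, MvPolynomial.pderiv_X]
      by_cases hs : s = i
      · subst hs
        rw [if_pos rfl]
        simp only [map_add, map_mul, MvPolynomial.aeval_X, Pi.single_eq_same, map_one, mul_one]
        ring
      · rw [if_neg hs]
        simp only [map_add, map_mul, MvPolynomial.aeval_X, Pi.single_eq_of_ne' hs, map_zero,
          mul_zero, add_zero]
        ring
    rw [Finset.sum_congr rfl fun s _ => h1 s, Finset.sum_add_distrib, ← Finset.mul_sum, ← hp,
      Finset.sum_ite_eq' Finset.univ i, if_pos (Finset.mem_univ i), map_mul,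
      MvPolynomial.aeval_X, Derivation.leibniz, smul_eq_mul, smul_eq_mul]
    ring

theorem reg_aeval {ι : Type} (P : Place ℂ L) (v : ι → L) (hv : ∀ i, P.Reg (v i))
    (H : MvPolynomial ι ℂ) : P.Reg (MvPolynomial.aeval v H) := by
  induction H using MvPolynomial.induction_on with
  | C a =>
    rw [MvPolynomial.aeval_C]
    exact P.reg_const a
  | add p q hp hq =>
    rw [map_add]
    exact P.reg_add hp hq
  | mul_X p i hp =>
    rw [map_mul, MvPolynomial.aeval_X]
    exact P.reg_mul hp (hv i)

theorem ord_zero_of_reg (P : Place ℂ L) {g : L} (h : P.Reg g) (h1 : ¬ Ge P 1 g) :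
    g ≠ 0 ∧ P.ord g = 0 := by
  unfold Ge at h1
  push Not at h1
  refine ⟨h1.1, ?_⟩
  have h2 := (P.reg_iff h1.1).1 h
  have h3 := h1.2
  omega

theorem exists_poly (P : Place ℂ L) (u : Fin d → L) (A : Finset (Fin d))
    (hreg : ∀ s ∈ A, P.Reg (u s)) (f : L) (hf0 : f ≠ 0) (hfP : 1 ≤ P.ord f)
    (hfA : IsAlgebraic (IntermediateField.adjoin ℂ (u '' (A : Set (Fin d)))) f) :
    ∃ G : MvPolynomial {s // s ∈ A} ℂ, G ≠ 0 ∧
      Ge P 1 (MvPolynomial.aeval (fun s : {s // s ∈ A} => u s) G) := by
  classical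
  by_contra hcon
  push Not at hcon
  have hu : ∀ s : {s // s ∈ A}, P.Reg (u s) := fun s => hreg s.1 s.2
  have hsec : ∀ y : (u '' (A : Set (Fin d))), ∃ s : {s // s ∈ A}, u s = y := by
    rintro ⟨y, s, hs, rfl⟩
    exact ⟨⟨s, hs⟩, rfl⟩
  choose σ hσ using hsec
  have hσi : Function.Injective σ := by
    intro y y' h
    apply Subtype.ext
    rw [← hσ y, ← hσ y', h]
  have hpoly : ∀ H : MvPolynomial (u '' (A : Set (Fin d))) ℂ,
      MvPolynomial.aeval (Subtype.val : (u '' (A : Set (Fin d))) → L) H =
        MvPolynomial.aeval (fun s : {s // s ∈ A} => u s) (MvPolynomial.rename σ H) := by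
    intro H
    rw [MvPolynomial.aeval_rename]
    congr 1
    congr 1
    funext y
    exact (hσ y).symm
  have hval : ∀ H : MvPolynomial (u '' (A : Set (Fin d))) ℂ,
      MvPolynomial.aeval (Subtype.val : (u '' (A : Set (Fin d))) → L) H ≠ 0 →
      P.ord (MvPolynomial.aeval (Subtype.val : (u '' (A : Set (Fin d))) → L) H) = 0 := by
    intro H hH
    have h1 : MvPolynomial.rename σ H ≠ 0 := by
      intro h0
      rw [hpoly, h0, map_zero] at hH
      exact hH rfl
    have h2 := ord_zero_of_reg P (reg_aeval P _ hu _) (hcon _ h1)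
    rw [hpoly]
    exact h2.2
  have hF : ∀ g : IntermediateField.adjoin ℂ (u '' (A : Set (Fin d))), g ≠ 0 →
      P.ord (g : L) = 0 := by
    intro g hg
    obtain ⟨r, s, hrs⟩ := (IntermediateField.mem_adjoin_iff ℂ (g : L)).1 g.2
    have hg0 : (g : L) ≠ 0 := fun h => hg (Subtype.ext h)
    have hs0 : MvPolynomial.aeval (Subtype.val : (u '' (A : Set (Fin d))) → L) s ≠ 0 := by
      intro h0
      rw [h0, div_zero] at hrs
      exact hg0 hrs
    have hr0 : MvPolynomial.aeval (Subtype.val : (u '' (A : Set (Fin d))) → L) r ≠ 0 := by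
      intro h0
      rw [h0, zero_div] at hrs
      exact hg0 hrs
    rw [hrs, P.ord_div hr0 hs0, hval r hr0, hval s hs0, sub_zero]
  have hFr : ∀ g : IntermediateField.adjoin ℂ (u '' (A : Set (Fin d))), P.Reg (g : L) := by
    intro g
    by_cases hg : g = 0
    · rw [hg]
      exact Or.inl rfl
    · exact Or.inr (hF g hg).ge
  have hfr : P.Reg f := Or.inr (by omega)
  set q := minpoly (IntermediateField.adjoin ℂ (u '' (A : Set (Fin d)))) f with hq
  have h0 : q.coeff 0 ≠ 0 := minpoly.coeff_zero_ne_zero hfA.isIntegral hf0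
  have h1 : Polynomial.aeval f q.divX * f + algebraMap _ L (q.coeff 0) = 0 := by
    have h2 := minpoly.aeval (IntermediateField.adjoin ℂ (u '' (A : Set (Fin d)))) f
    rw [← hq] at h2
    conv_lhs at h2 => rw [← Polynomial.divX_mul_X_add q]
    rw [map_add, map_mul, Polynomial.aeval_X, Polynomial.aeval_C] at h2
    exact h2
  have h2 : Ge P 0 (Polynomial.aeval f q.divX) := by
    rw [Polynomial.aeval_eq_sum_range]
    refine Ge.sum _ _ fun i _ => ?_
    rw [Algebra.smul_def]
    have h3 : Ge P 0 ((algebraMap _ L) (q.divX.coeff i)) := hFr _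
    have h4 : Ge P 0 (f ^ i) := by
      have := Ge.pow (P := P) (N := 0) (f := f) hfr i
      rwa [mul_zero] at this
    have h5 := h3.mul h4
    rwa [add_zero] at h5
  have h3 : Ge P 1 ((algebraMap _ L) (q.coeff 0)) := by
    have h4 : (algebraMap _ L) (q.coeff 0) = -(Polynomial.aeval f q.divX * f) :=
      (neg_eq_of_add_eq_zero_right h1).symm
    rw [h4]
    have h5 : Ge P 1 f := Or.inr hfP
    have h6 := h2.mul h5
    rw [zero_add] at h6
    rcases h6 with h6 | h6
    · left
      rw [h6, neg_zero]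
    · right
      rw [P.ord_neg]
      exact h6
  rcases h3 with h3 | h3
  · exact h0 (Subtype.ext h3)
  · have h4 := hF _ h0
    have h5 : P.ord ((algebraMap _ L) (q.coeff 0)) = 0 := h4
    omega

theorem eta_good (P : Place ℂ L) (D : Fin d → Derivation ℂ L L) (hD : ∀ i, DerReg P (D i))
    (u : Fin d → L) (hu : AlgebraicIndependent ℂ u) (A : Finset (Fin d))
    (hreg : ∀ s ∈ A, P.Reg (u s)) (b : Fin d → ℂ) (f : L) (hf0 : f ≠ 0) (hfP : 1 ≤ P.ord f)
    (hfA : IsAlgebraic (IntermediateField.adjoin ℂ (u '' (A : Set (Fin d)))) f) :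
    Ge P (∑ s ∈ Finset.univ \ A, P.ord (u s - algebraMap ℂ L (b s))) (eta u id D) := by
  classical
  have hA : ∀ s : {s // s ∈ A}, P.Reg (u s) := fun s => hreg s.1 s.2
  -- a polynomial of minimal degree
  obtain ⟨G, ⟨hG0, hGP⟩, hmin⟩ : ∃ G : MvPolynomial {s // s ∈ A} ℂ, (G ≠ 0 ∧
      Ge P 1 (MvPolynomial.aeval (fun s : {s // s ∈ A} => u s) G)) ∧
      ∀ H : MvPolynomial {s // s ∈ A} ℂ, H ≠ 0 → H.totalDegree < G.totalDegree →
        ¬ Ge P 1 (MvPolynomial.aeval (fun s : {s // s ∈ A} => u s) H) := by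
    have hex : ∃ n : ℕ, ∃ G : MvPolynomial {s // s ∈ A} ℂ, (G ≠ 0 ∧
        Ge P 1 (MvPolynomial.aeval (fun s : {s // s ∈ A} => u s) G)) ∧ G.totalDegree = n := by
      obtain ⟨G, hG⟩ := exists_poly P u A hreg f hf0 hfP hfA
      exact ⟨_, G, hG, rfl⟩
    obtain ⟨G, hG, hn⟩ := Nat.find_spec hex
    refine ⟨G, hG, fun H hH hd hHP => ?_⟩
    rw [hn] at hd
    exact Nat.find_min hex hd ⟨H, ⟨hH, hHP⟩, rfl⟩
  have hui : AlgebraicIndependent ℂ (fun s : {s // s ∈ A} => u s) :=
    hu.comp _ Subtype.val_injective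
  set g : L := MvPolynomial.aeval (fun s : {s // s ∈ A} => u s) G with hg
  have hg0 : g ≠ 0 := by
    intro h0
    exact hG0 ((injective_iff_map_eq_zero _).1 hui G h0)
  have hgP : 1 ≤ P.ord g := hGP.resolve_left hg0
  -- a variable which occurs
  obtain ⟨s0, m, hm, hms⟩ : ∃ (s0 : {s // s ∈ A}) (m : {s // s ∈ A} →₀ ℕ),
      MvPolynomial.coeff m G ≠ 0 ∧ m s0 ≠ 0 := by
    by_contra hcon
    push Not at hcon
    have h1 : G = MvPolynomial.C (MvPolynomial.coeff 0 G) := by
      ext m
      rw [MvPolynomial.coeff_C]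
      by_cases hm : m = 0
      · rw [if_pos hm.symm, hm]
      · rw [if_neg (Ne.symm hm)]
        by_contra h2
        exact hm (Finsupp.ext fun s => hcon s m h2)
    have h2 : MvPolynomial.coeff 0 G ≠ 0 := by
      intro h0
      rw [h0, map_zero] at h1
      exact hG0 h1
    have h3 : g = algebraMap ℂ L (MvPolynomial.coeff 0 G) := by
      rw [hg, h1, MvPolynomial.aeval_C, MvPolynomial.coeff_C, if_pos rfl]
    rw [h3, P.ord_const h2] at hgP
    omega
  have hpd0 : MvPolynomial.pderiv s0 G ≠ 0 := by
    intro h0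
    have h1 := MvPolynomial.coeff_pderiv (i := s0) G (m - Finsupp.single s0 1)
    have h2 : m - Finsupp.single s0 1 + Finsupp.single s0 1 = m := by
      refine tsub_add_cancel_of_le ?_
      rw [Finsupp.single_le_iff]
      exact Nat.one_le_iff_ne_zero.2 hms
    rw [h0, h2, MvPolynomial.coeff_zero] at h1
    rcases mul_eq_zero.1 h1.symm with h3 | h3
    · exact hm h3
    · exact Nat.cast_add_one_ne_zero _ h3
  have hpdd : (MvPolynomial.pderiv s0 G).totalDegree < G.totalDegree := by
    obtain ⟨m1, hm1, hm2⟩ := MvPolynomial.exists_coeff_ne_zero hpd0 |>.imp fun _ h => h |> fun h =>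
      (⟨h, h⟩ : _ ∧ _)
    rw [MvPolynomial.totalDegree, Finset.sup_lt_iff]
    · intro m' hm'
      rw [MvPolynomial.mem_support_iff, MvPolynomial.coeff_pderiv] at hm'
      have h1 : MvPolynomial.coeff (m' + Finsupp.single s0 1) G ≠ 0 := left_ne_zero_of_mul hm'
      have h2 := MvPolynomial.le_totalDegree (MvPolynomial.mem_support_iff.2 h1)
      rw [Finsupp.sum_add_index' (fun _ => rfl) (fun _ _ _ => rfl),
        Finsupp.sum_single_index rfl] at h2
      omega
    · rw [MvPolynomial.coeff_pderiv] at hm1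
      have h1 : MvPolynomial.coeff (m1 + Finsupp.single s0 1) G ≠ 0 := left_ne_zero_of_mul hm1
      have h2 := MvPolynomial.le_totalDegree (MvPolynomial.mem_support_iff.2 h1)
      rw [Finsupp.sum_add_index' (fun _ => rfl) (fun _ _ _ => rfl),
        Finsupp.sum_single_index rfl] at h2
      show 0 < G.totalDegree
      omega
  obtain ⟨hv0, hvo⟩ := ord_zero_of_reg P (reg_aeval P _ hA _) (hmin _ hpd0 hpdd)
  set v : L := MvPolynomial.aeval (fun s : {s // s ∈ A} => u s) (MvPolynomial.pderiv s0 G) with hv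
  -- column operations
  set cc : Fin d → L := fun s => if h : s ∈ A then
    MvPolynomial.aeval (fun s : {s // s ∈ A} => u s) (MvPolynomial.pderiv ⟨s, h⟩ G) else 0 with hcc
  have hcs : cc s0 = v := by
    rw [hcc]
    simp only [s0.2, dif_pos, Subtype.coe_eta, hv]
  have hder : ∀ l, D l g = ∑ s, cc s * D l (u s) := by
    intro l
    rw [hg, der_aeval]
    have h1 : ∑ s, cc s * D l (u s) = ∑ s ∈ A, cc s * D l (u s) := by
      symm
      refine Finset.sum_subset (Finset.subset_univ _) fun s _ hs => ?_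
      rw [hcc]
      simp only [hs, dif_neg, not_false_iff, zero_mul]
    rw [h1, ← Finset.sum_coe_sort A]
    refine Finset.sum_congr rfl fun s _ => ?_
    rw [hcc]
    simp only [s.2, dif_pos, Subtype.coe_eta]
  have hdet : eta (Function.update u s0 g) id D = v * eta u id D := by
    unfold Pool.Agent.H583_GP.eta
    have h1 := Matrix.det_updateCol_sum (Matrix.of fun l s : Fin d => D l (u s)) (s0 : Fin d) cc
    rw [hcs, smul_eq_mul] at h1
    simp only [id]
    rw [← h1]
    congr 1
    ext l s
    simp only [Matrix.of_apply, Matrix.updateCol_apply, smul_eq_mul]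
    by_cases hs : s = s0
    · rw [hs, Function.update_self, if_pos rfl, hder]
    · rw [Function.update_of_ne hs, if_neg hs]
  -- the orders
  set b' : Fin d → ℂ := fun s => if s ∈ A then 0 else b s with hb'
  have hne : ∀ s, (Function.update u s0 g) (id s) - algebraMap ℂ L (b' s) ≠ 0 := by
    intro s
    simp only [id]
    by_cases hs : s = s0
    · rw [hs, Function.update_self, hb']
      simp only [s0.2, if_pos, map_zero, sub_zero]
      exact hg0
    · rw [Function.update_of_ne hs]
      intro h0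
      exact hu.transcendental s ((sub_eq_zero.1 h0) ▸ isAlgebraic_algebraMap _)
  have h1 := eta_ge P D hD (Function.update u s0 g) id b' hne
  rw [hdet] at h1
  have h2 : (∑ s ∈ Finset.univ \ A, P.ord (u s - algebraMap ℂ L (b s))) ≤
      (∑ s, P.ord ((Function.update u s0 g) (id s) - algebraMap ℂ L (b' s))) - 1 := by
    rw [← Finset.sum_sdiff (Finset.subset_univ A)]
    have h3 : ∑ s ∈ Finset.univ \ A, P.ord ((Function.update u s0 g) (id s) -
        algebraMap ℂ L (b' s)) =
        ∑ s ∈ Finset.univ \ A, P.ord (u s - algebraMap ℂ L (b s)) := by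
      refine Finset.sum_congr rfl fun s hs => ?_
      have hsA : s ∉ A := (Finset.mem_sdiff.1 hs).2
      have hss : s ≠ s0 := fun h => hsA (h ▸ s0.2)
      simp only [id, hb']
      rw [Function.update_of_ne hss, if_neg hsA]
    have h4 : 1 ≤ ∑ s ∈ A, P.ord ((Function.update u s0 g) (id s) - algebraMap ℂ L (b' s)) := by
      have h5 : ∀ s ∈ A, 0 ≤ P.ord ((Function.update u s0 g) (id s) -
          algebraMap ℂ L (b' s)) := by
        intro s hs
        have h6 := hne s
        simp only [id, hb'] at h6 ⊢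
        rw [if_pos hs, map_zero, sub_zero] at h6 ⊢
        by_cases hss : s = s0
        · rw [hss, Function.update_self]
          omega
        · rw [Function.update_of_ne hss] at h6 ⊢
          exact (P.reg_iff h6).1 (hreg s hs)
      have h6 := Finset.single_le_sum h5 s0.2
      have h7 : P.ord ((Function.update u s0 g) (id (s0 : Fin d)) -
          algebraMap ℂ L (b' s0)) = P.ord g := by
        simp only [id, hb']
        rw [if_pos s0.2, map_zero, sub_zero, Function.update_self]
      rw [h7] at h6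
      omega
    rw [h3]
    omega
  have h3 := h1.mono h2
  rcases h3 with h3 | h3
  · exact Or.inl ((mul_eq_zero.1 h3).resolve_left hv0)
  · by_cases he : eta u id D = 0
    · exact Or.inl he
    · right
      rw [P.ord_mul hv0 he, hvo, zero_add] at h3
      exact h3

end Pool.Agent.H583_U
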