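import Pool.Agent.H583_GQ.GTL

/-!
The orders of wedge products at places, with poles.
-/

set_option autoImplicit false

open FF Pool.Agent.W602.GT Pool.Agent.W603.LV Pool.Agent.W602.Cov.G

namespace Pool.Agent.H583_U

open Pool.Agent.H583_GP (eta eta_ge)
open Pool.Agent.H583_GQ (lgB)
open Pool.Agent.H583_GP (Branch)

variable {N d : ℕ} {p : Fin N → ℕ} {a : ∀ i, Fin (p i) → ℂ} {L : Type} [Field L] [Algebra ℂ L]

/-- the statement of U1 (`eta_good`), which is proved in another job -/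
def S_eta_good : Prop :=
  ∀ (d : ℕ) (L : Type) [Field L] [Algebra ℂ L] (P : Place ℂ L) (D : Fin d → Derivation ℂ L L),
    (∀ i, DerReg P (D i)) → ∀ u : Fin d → L, AlgebraicIndependent ℂ u → ∀ A : Finset (Fin d),
    (∀ s ∈ A, P.Reg (u s)) → ∀ (b : Fin d → ℂ) (f : L), f ≠ 0 → 1 ≤ P.ord f →
    IsAlgebraic (IntermediateField.adjoin ℂ (u '' (A : Set (Fin d)))) f →
    Ge P (∑ s ∈ Finset.univ \ A, P.ord (u s - algebraMap ℂ L (b s))) (eta u id D)

/-- the inverses of some elements generate the same field -/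
theorem U1b_adjoin_le {ι : Type} {v w : ι → L} (h : ∀ i, w i = v i ∨ w i = (v i)⁻¹) (A : Set ι) :
    IntermediateField.adjoin ℂ (w '' A) ≤ IntermediateField.adjoin ℂ (v '' A) := by
  rw [IntermediateField.adjoin_le_iff]
  rintro _ ⟨s, hs, rfl⟩
  have h1 : v s ∈ IntermediateField.adjoin ℂ (v '' A) :=
    IntermediateField.subset_adjoin ℂ _ ⟨s, hs, rfl⟩
  rcases h s with h2 | h2
  · show w s ∈ IntermediateField.adjoin ℂ (v '' A)
    rw [h2]
    exact h1
  · show w s ∈ IntermediateField.adjoin ℂ (v '' A)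
    rw [h2]
    exact inv_mem h1

theorem U1b_adjoin_eq {ι : Type} {v w : ι → L} (h : ∀ i, w i = v i ∨ w i = (v i)⁻¹) (A : Set ι) :
    IntermediateField.adjoin ℂ (w '' A) = IntermediateField.adjoin ℂ (v '' A) := by
  refine le_antisymm (U1b_adjoin_le h A) (U1b_adjoin_le (fun i => ?_) A)
  rcases h i with h2 | h2
  · exact Or.inl h2.symm
  · right
    rw [h2, inv_inv]

/-- the inverses of some elements of a transcendence basis are algebraically independent -/
theorem U1b_ind {d : ℕ} {v w : Fin d → L} (h : ∀ i, w i = v i ∨ w i = (v i)⁻¹)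
    (hv : IsTranscendenceBasis ℂ v) : AlgebraicIndependent ℂ w := by
  have h1 : Algebra.IsAlgebraic (IntermediateField.adjoin ℂ (Set.range v)) L := hv.isAlgebraic_field
  have h2 : IntermediateField.adjoin ℂ (Set.range w) = IntermediateField.adjoin ℂ (Set.range v) := by
    rw [← Set.image_univ, ← Set.image_univ]
    exact U1b_adjoin_eq h _
  have h3 : Algebra.IsAlgebraic (IntermediateField.adjoin ℂ (Set.range w)) L := by
    rw [h2]
    exact h1
  have h4 : Algebra.IsAlgebraic (Algebra.adjoin ℂ (Set.range w)) L := Pool.Agent.W602.GT.alg_adjoin h3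
  refine (Algebra.IsAlgebraic.isTranscendenceBasis_of_le_trdeg_of_finite ℂ w ?_).1
  rw [← hv.cardinalMk_eq_trdeg]

/-- TARGET U1b. Compare `Branch.eta_place` in `Pool/Agent/H583_GP/GT.lean` (the same without the gain
of `1`; its proof with `y i = x i` or `(x i)⁻¹`, `u i = 1` or `-(x i) ^ 2` can be copied), and use the
hypothesis `hg` (with the family `fun s => y (c s)`, `A = {s | c s ∈ S}`, `f = x i0 - a i0 j0`, which is
nonzero of order `K i0 j0 ≥ 1`) instead of `eta_ge` / `eta_reg`. The family `y ∘ c` is algebraically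
independent and `adjoin ℂ (y ∘ c '' A) = adjoin ℂ (x ∘ c '' A)`, since `y i` is `x i` or its inverse.
For `s ∈ A`: `K (c s) = 0`, so the sum over `s` of `∑ j, K (c s) j` is a sum over `s ∉ A`; for
`s ∉ A` choose the constants `b` as there. -/
theorem eta_place_good (hg : S_eta_good) (ha : ∀ i, Function.Injective (a i)) (hp : ∀ i, 3 ≤ p i)
    (P : Place ℂ L) (D : Fin d → Derivation ℂ L L) (hD : ∀ i, DerReg P (D i)) {x : Fin N → L}
    (hne : ∀ i j, x i ≠ algebraMap ℂ L (a i j)) {K : ∀ i, Fin (p i) → ℕ} {l : Fin N → ℕ}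
    (hK : (lgB a ha).Adm K)
    (h : ∀ i, (l i = 0 ∧ P.Reg (x i) ∧ ∀ j, P.ord (x i - algebraMap ℂ L (a i j)) = K i j) ∨
      (0 < l i ∧ K i = 0 ∧ x i ≠ 0 ∧ P.ord (x i) = -l i ∧
        ∀ c, x i - algebraMap ℂ L c ≠ 0 ∧ P.ord (x i - algebraMap ℂ L c) = -l i))
    {c : Fin d → Fin N} (hc : IsTranscendenceBasis ℂ fun s => x (c s)) (S : Finset (Fin N))
    (hS : ∀ s, c s ∈ S → K (c s) = 0) {i0 : Fin N} (hi0 : K i0 ≠ 0)
    (hdep : IsAlgebraic (IntermediateField.adjoin ℂ ((fun s => x (c s)) '' {s | c s ∈ S})) (x i0)) :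
    Ge P (∑ s, ((∑ j, (K (c s) j : ℤ)) - 2 * l (c s))) (eta x c D) := by
  classical
  -- the coordinates which are regular at the place
  set y : Fin N → L := fun i => if l i = 0 then x i else (x i)⁻¹ with hy
  set u : Fin N → L := fun i => if l i = 0 then 1 else -(x i) ^ 2 with hu
  have h1 : eta x c D = (∏ s, u (c s)) * eta y c D := by
    unfold Pool.Agent.H583_GP.eta
    rw [← Matrix.det_mul_row]
    congr 1
    ext i s
    simp only [Matrix.of_apply, hu, hy]
    by_cases hl : l (c s) = 0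
    · rw [if_pos hl, if_pos hl, one_mul]
    · rw [if_neg hl, if_neg hl]
      rcases h (c s) with ⟨h2, -⟩ | ⟨-, -, h2, -⟩
      · exact absurd h2 hl
      · rw [Derivation.leibniz_inv, smul_eq_mul]
        field_simp
  have hord : ∀ i, P.ord (u i) = -2 * l i := by
    intro i
    simp only [hu]
    by_cases hl : l i = 0
    · rw [if_pos hl, hl, P.ord_one]
      simp
    · rw [if_neg hl, P.ord_neg, P.ord_pow]
      rcases h i with ⟨h2, -⟩ | ⟨-, -, -, h2, -⟩
      · exact absurd h2 hl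
      · rw [h2]
        push_cast
        ring
  have h2 : Ge P (∑ s, -2 * (l (c s) : ℤ)) (∏ s, u (c s)) := by
    refine Ge.prod _ _ _ fun s _ => ?_
    rw [← hord]
    exact ge_ord P _
  have hreg : ∀ i, P.Reg (y i) := by
    intro i
    simp only [hy]
    rcases h i with ⟨h3, h4, -⟩ | ⟨h3, -, h4, h5, -⟩
    · rw [if_pos h3]
      exact h4
    · rw [if_neg h3.ne']
      right
      rw [P.ord_inv, h5]
      omega
  have hyx : ∀ s, y (c s) = x (c s) ∨ y (c s) = (x (c s))⁻¹ := by
    intro s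
    simp only [hy]
    by_cases hl : l (c s) = 0
    · rw [if_pos hl]
      exact Or.inl rfl
    · rw [if_neg hl]
      exact Or.inr rfl
  -- the values at the place
  have hb : ∀ i, ∃ b : ℂ, (∑ j, (K i j : ℤ)) ≤ P.ord (y i - algebraMap ℂ L b) := by
    intro i
    obtain ⟨j, hj⟩ := Branch.Adm.sel (B := lgB a ha) hp hK i
    simp only [hy]
    rcases h i with ⟨h3, -, h4⟩ | ⟨h3, h6, h4, h5, -⟩
    · rw [if_pos h3]
      refine ⟨a i j, ?_⟩
      rw [h4]
      have hj' : K i j = ∑ j', K i j' := hj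
      rw [hj']
      push_cast
      exact le_rfl
    · rw [if_neg h3.ne']
      refine ⟨0, ?_⟩
      rw [map_zero, sub_zero, P.ord_inv, h5, h6]
      simp
  choose b hb2 using hb
  -- the function `f`
  obtain ⟨j0, hj0⟩ : ∃ j0, K i0 j0 ≠ 0 := by
    by_contra hcon
    push Not at hcon
    exact hi0 (funext hcon)
  have hf0 : x i0 - algebraMap ℂ L (a i0 j0) ≠ 0 := sub_ne_zero.2 (hne _ _)
  have hf1 : 1 ≤ P.ord (x i0 - algebraMap ℂ L (a i0 j0)) := by
    rcases h i0 with ⟨-, -, h3⟩ | ⟨-, h3, -⟩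
    · rw [h3 j0]
      have : 1 ≤ K i0 j0 := Nat.one_le_iff_ne_zero.2 hj0
      exact_mod_cast this
    · exact absurd h3 hi0
  set A : Finset (Fin d) := Finset.univ.filter fun s => c s ∈ S with hA
  have hAset : (A : Set (Fin d)) = {s | c s ∈ S} := by
    ext s
    simp [hA]
  have hfalg : IsAlgebraic (IntermediateField.adjoin ℂ ((fun s => y (c s)) '' (A : Set (Fin d))))
      (x i0 - algebraMap ℂ L (a i0 j0)) := by
    rw [hAset, U1b_adjoin_eq hyx]
    refine hdep.sub ?_
    rw [IsScalarTower.algebraMap_apply ℂ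
      (IntermediateField.adjoin ℂ ((fun s => x (c s)) '' {s | c s ∈ S})) L]
    exact isAlgebraic_algebraMap _
  have h3 := hg d L P D hD (fun s => y (c s)) (U1b_ind hyx hc) A (fun s _ => hreg _)
    (fun s => b (c s)) (x i0 - algebraMap ℂ L (a i0 j0)) hf0 hf1 hfalg
  have h4 : eta (fun s => y (c s)) id D = eta y c D := rfl
  rw [h4] at h3
  have h5 : (∑ s, (∑ j, (K (c s) j : ℤ))) ≤
      ∑ s ∈ Finset.univ \ A, P.ord (y (c s) - algebraMap ℂ L (b (c s))) := by
    rw [← Finset.sum_subset (Finset.subset_univ (Finset.univ \ A))]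
    · exact Finset.sum_le_sum fun s _ => hb2 (c s)
    · intro s _ hs
      have hsA : s ∈ A := by
        by_contra hcon
        exact hs (Finset.mem_sdiff.2 ⟨Finset.mem_univ s, hcon⟩)
      have hsS : c s ∈ S := by
        rw [hA, Finset.mem_filter] at hsA
        exact hsA.2
      rw [hS s hsS]
      simp
  rw [h1]
  refine (h2.mul (h3.mono h5)).mono (le_of_eq ?_)
  rw [Finset.sum_sub_distrib, ← Finset.mul_sum, ← Finset.mul_sum]
  ring

end Pool.Agent.H583_U
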