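import Pool.Agent.H583_GQ.GTL
import Pool.Agent.H583_U.Num

/-!
Logarithmic general type: products of wedge products.
-/

set_option autoImplicit false

open FF Pool.Agent.W602.GT Pool.Agent.W603.LV Pool.Agent.W602.Cov.G

namespace Pool.Agent.H583_U

open Pool.Agent.H583_GP (eta eta_mul eta_ge eta_reg eta_exists eta_ne exists_basis0 const_of_alg)
open Pool.Agent.H583_GQ (lgB lg_place lg_eta_place mult)
open Pool.Agent.H583_GP (Branch)

variable {N d : ℕ} {p : Fin N → ℕ} {a : ∀ i, Fin (p i) → ℂ} {L : Type} [Field L] [Algebra ℂ L]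

theorem cnt_sum {n : ℕ} (c : Fin n → Fin d → Fin N) (G : Fin N → ℤ) :
    ∑ i, (cnt c i : ℤ) * G i = ∑ t, ∑ s, G (c t s) := by
  unfold cnt
  push_cast
  simp only [Finset.sum_mul]
  rw [Finset.sum_comm]
  refine Finset.sum_congr rfl fun t _ => ?_
  rw [Finset.sum_comm]
  refine Finset.sum_congr rfl fun s _ => ?_
  simp

/-- the product of the wedge products -/
noncomputable def frm (a : ∀ i, Fin (p i) → ℂ) (x : Fin N → L) {n : ℕ} (c : Fin n → Fin d → Fin N)
    (F : ∀ i, Fin (p i) → ℕ) (h : L) (D : Fin d → Derivation ℂ L L) : L :=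
  (∏ t, eta x (c t) D) *
    ((∏ i, ∏ j, (x i - algebraMap ℂ L (a i j)) ^ ((F i j : ℤ) - cnt c i)) * h)

theorem frm_pluri (x : Fin N → L) {n : ℕ} (c : Fin n → Fin d → Fin N)
    (F : ∀ i, Fin (p i) → ℕ) (h : L) : IsPluri n (frm a x c F h) := by
  intro A D
  unfold frm
  simp only [eta_mul]
  rw [Finset.prod_mul_distrib, Finset.prod_const, Finset.card_univ, Fintype.card_fin]
  ring

theorem frm_ge {x : Fin N → L} {n : ℕ} {c : Fin n → Fin d → Fin N} {F : ∀ i, Fin (p i) → ℕ}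
    (hnum : ∀ i, Transcendental ℂ (x i) →
      ∑ j, (F i j : ℤ) < cnt c i * ((p i : ℤ) - 2)) (P : Place ℂ L)
    {h : L} (hh : h = 1 ∨ ∃ i, h = x i) {K : ∀ i, Fin (p i) → ℕ} {l : Fin N → ℕ}
    (hP : ∀ i, (l i = 0 ∧ P.Reg (x i) ∧ ∀ j, P.ord (x i - algebraMap ℂ L (a i j)) = K i j) ∨
      (0 < l i ∧ K i = 0 ∧ x i ≠ 0 ∧ P.ord (x i) = -l i ∧
        ∀ c, x i - algebraMap ℂ L c ≠ 0 ∧ P.ord (x i - algebraMap ℂ L c) = -l i))
    (δ : Fin n → ℤ) (D : Fin d → Derivation ℂ L L)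
    (hη : ∀ t, Ge P ((∑ s, ((∑ j, (K (c t s) j : ℤ)) - 2 * l (c t s))) - δ t) (eta x (c t) D))
    (hδ : ∑ t, δ t ≤ ∑ i, ∑ j, (F i j : ℤ) * K i j) :
    P.Reg (frm a x c F h D) := by
  classical
  -- the constant coordinates
  have hl0 : ∀ i, ¬ Transcendental ℂ (x i) → l i = 0 := by
    intro i hi
    obtain ⟨b, hb⟩ := const_of_alg (of_not_not hi)
    rcases hP i with ⟨h1, -⟩ | ⟨-, -, -, -, h1⟩
    · exact h1
    · exact absurd (sub_eq_zero.2 hb) (h1 b).1
  -- the order of the factor `h`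
  obtain ⟨lam, hlam1, hlam2⟩ : ∃ lam : ℤ, lam ≤ ∑ i, (l i : ℤ) ∧ Ge P (-lam) h := by
    rcases hh with rfl | ⟨i, rfl⟩
    · refine ⟨0, Finset.sum_nonneg fun i _ => Int.natCast_nonneg _, ?_⟩
      rw [neg_zero]
      exact Ge.one
    · refine ⟨l i, Finset.single_le_sum (f := fun i => (l i : ℤ))
        (fun i _ => Int.natCast_nonneg _) (Finset.mem_univ i), ?_⟩
      rcases hP i with ⟨h1, h2, -⟩ | ⟨h1, -, h3, h2, -⟩
      · rw [h1]
        exact h2
      · exact Or.inr h2.ge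
  have h1 : Ge P (∑ t, ((∑ s, ((∑ j, (K (c t s) j : ℤ)) - 2 * l (c t s))) - δ t))
      (∏ t, eta x (c t) D) := Ge.prod _ _ _ fun t _ => hη t
  have hord : ∀ i j, P.ord (x i - algebraMap ℂ L (a i j)) = K i j - l i := by
    intro i j
    rcases hP i with ⟨h2, -, h3⟩ | ⟨-, h2, -, -, h3⟩
    · rw [h3, h2]
      simp
    · rw [(h3 _).2, h2]
      simp
  have h2 : Ge P (∑ i, ∑ j, ((F i j : ℤ) - cnt c i) * (K i j - l i))
      (∏ i, ∏ j, (x i - algebraMap ℂ L (a i j)) ^ ((F i j : ℤ) - cnt c i)) := by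
    refine Ge.prod _ _ _ fun i _ => Ge.prod _ _ _ fun j _ => ?_
    rw [← hord, ← P.ord_zpow]
    exact ge_ord P _
  have h3 := h1.mul (h2.mul hlam2)
  unfold frm
  refine h3.mono ?_
  -- the computation
  have e1 : ∑ t, ((∑ s, ((∑ j, (K (c t s) j : ℤ)) - 2 * l (c t s))) - δ t) =
      ∑ i, (cnt c i : ℤ) * ((∑ j, (K i j : ℤ)) - 2 * l i) - ∑ t, δ t := by
    rw [cnt_sum, ← Finset.sum_sub_distrib]
  have e2 : ∑ i, ∑ j, ((F i j : ℤ) - cnt c i) * (K i j - l i) =
      ∑ i, ∑ j, (F i j : ℤ) * K i j - ∑ i, (cnt c i : ℤ) * (∑ j, (K i j : ℤ)) +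
        ∑ i, (l i : ℤ) * (p i * cnt c i - ∑ j, (F i j : ℤ)) := by
    rw [← Finset.sum_sub_distrib, ← Finset.sum_add_distrib]
    refine Finset.sum_congr rfl fun i _ => ?_
    have e3 : ∀ j, ((F i j : ℤ) - cnt c i) * (K i j - l i) =
        ((F i j : ℤ) * K i j - cnt c i * K i j) + (l i * cnt c i - l i * F i j) :=
      fun j => by ring
    have e8 : ∑ j, (l i : ℤ) * F i j = l i * ∑ j, (F i j : ℤ) := (Finset.mul_sum _ _ _).symm
    have e9 : ∑ j, (cnt c i : ℤ) * K i j = cnt c i * ∑ j, (K i j : ℤ) :=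
      (Finset.mul_sum _ _ _).symm
    rw [Finset.sum_congr rfl fun j _ => e3 j, Finset.sum_add_distrib, Finset.sum_sub_distrib,
      Finset.sum_sub_distrib, e8, e9, Finset.sum_const,
      Finset.card_univ, Fintype.card_fin, nsmul_eq_mul]
    ring
  have e5 : ∑ i, (l i : ℤ) ≤ ∑ i, (l i : ℤ) *
      ((p i * cnt c i - ∑ j, (F i j : ℤ)) - 2 * cnt c i) := by
    refine Finset.sum_le_sum fun i _ => ?_
    by_cases hi : Transcendental ℂ (x i)
    · have h4 := hnum i hi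
      have h9 : (1 : ℤ) ≤ (p i * cnt c i - ∑ j, (F i j : ℤ)) - 2 * cnt c i := by
        have : ((p i : ℤ) * cnt c i - ∑ j, (F i j : ℤ)) - 2 * cnt c i =
          cnt c i * ((p i : ℤ) - 2) - ∑ j, (F i j : ℤ) := by ring
        rw [this]
        linarith
      have h10 : (0 : ℤ) ≤ l i := Int.natCast_nonneg _
      nlinarith
    · rw [hl0 i hi]
      simp
  rw [e1, e2]
  have e6 : ∑ i, (cnt c i : ℤ) * ((∑ j, (K i j : ℤ)) - 2 * l i) =
      ∑ i, (cnt c i : ℤ) * (∑ j, (K i j : ℤ)) - ∑ i, (l i : ℤ) * (2 * cnt c i) := by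
    rw [← Finset.sum_sub_distrib]
    exact Finset.sum_congr rfl fun i _ => by ring
  have e7 : ∑ i, (l i : ℤ) * ((p i * cnt c i - ∑ j, (F i j : ℤ)) - 2 * cnt c i) =
      ∑ i, (l i : ℤ) * (p i * cnt c i - ∑ j, (F i j : ℤ)) -
        ∑ i, (l i : ℤ) * (2 * cnt c i) := by
    rw [← Finset.sum_sub_distrib]
    exact Finset.sum_congr rfl fun i _ => by ring
  rw [e6]
  rw [e7] at e5
  linarith

/-- logarithmic general type, with a list of transcendence bases -/
theorem general_of_bases (ha : ∀ i, Function.Injective (a i)) (hp : ∀ i, 3 ≤ p i) {n : ℕ}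
    (hn : 0 < n) {c : Fin n → Fin d → Fin N} {F : ∀ i, Fin (p i) → ℕ} {x : Fin N → L}
    (hne : ∀ i j, x i ≠ algebraMap ℂ L (a i j))
    (halg : Algebra.IsAlgebraic (IntermediateField.adjoin ℂ (Set.range x)) L)
    (hd : Algebra.trdeg ℂ L = d) {Bd : Place ℂ L → Prop}
    (hc : ∀ t, IsTranscendenceBasis ℂ fun s => x (c t s))
    (hnum : ∀ i, Transcendental ℂ (x i) → ∑ j, (F i j : ℤ) < cnt c i * ((p i : ℤ) - 2))
    (hcost : ∀ P : Place ℂ L, Divisorial d P → ¬ Bd P → mult a P x ≠ 0 →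
      ∃ bad : Finset (Fin n), bad.card ≤ ∑ i, ∑ j, F i j * mult a P x i j ∧
        ∀ t ∉ bad, ∀ l : Fin N → ℕ, (lgB a ha).Adm (mult a P x) →
          (∀ i, (l i = 0 ∧ P.Reg (x i) ∧
              ∀ j, P.ord (x i - algebraMap ℂ L (a i j)) = mult a P x i j) ∨
            (0 < l i ∧ mult a P x i = 0 ∧ x i ≠ 0 ∧ P.ord (x i) = -l i ∧
              ∀ c, x i - algebraMap ℂ L c ≠ 0 ∧ P.ord (x i - algebraMap ℂ L c) = -l i)) →
          ∀ D : Fin d → Derivation ℂ L L, (∀ i, DerReg P (D i)) →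
            Ge P (∑ s, ((∑ j, (mult a P x (c t s) j : ℤ)) - 2 * l (c t s))) (eta x (c t) D)) :
    LogGeneralType ℂ L d Bd := by
  classical
  obtain ⟨c0, hc0⟩ := exists_basis0 halg hd
  have hh : ∀ s : Fin (d + 1), (Fin.cases 1 (fun s => x (c0 s)) s : L) = 1 ∨
      ∃ i, (Fin.cases 1 (fun s => x (c0 s)) s : L) = x i := by
    intro s
    refine Fin.cases (Or.inl rfl) (fun s => Or.inr ⟨c0 s, rfl⟩) s
  refine ⟨hd, n, hn, fun s => frm a x c F
    ((Fin.cases 1 (fun s => x (c0 s)) s : L)), fun s => frm_pluri _ _ _ _, ?_, ?_, ?_⟩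
  · intro P _ s D hD
    obtain ⟨l, hK, hP⟩ := lg_place ha P hne
    refine frm_ge hnum P (hh s) hP (fun _ => 0) D (fun t => ?_) ?_
    · rw [sub_zero]
      exact lg_eta_place ha hp P D hD hne hK hP (c t)
    · rw [Finset.sum_const_zero]
      exact Finset.sum_nonneg fun i _ => Finset.sum_nonneg fun j _ => by positivity
  · intro P hPd hPB s D hD
    obtain ⟨l, hK, hP⟩ := lg_place ha P hne
    by_cases hK0 : mult a P x = 0
    · refine frm_ge hnum P (hh s) hP (fun _ => 0) D (fun t => ?_) ?_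
      · have h1 := Branch.eta_place (B := lgB a ha) hp P D hD hne hK hP (c t)
        rw [if_pos hK0] at h1
        exact h1
      · rw [Finset.sum_const_zero]
        exact Finset.sum_nonneg fun i _ => Finset.sum_nonneg fun j _ => by positivity
    · obtain ⟨bad, hb1, hb2⟩ := hcost P hPd hPB hK0
      refine frm_ge hnum P (hh s) hP (fun t => if t ∈ bad then 1 else 0) D (fun t => ?_) ?_
      · by_cases ht : t ∈ bad
        · have h1 := Branch.eta_place (B := lgB a ha) hp P D hD hne hK hP (c t)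
          rw [if_neg hK0] at h1
          rw [if_pos ht]
          exact h1
        · rw [if_neg ht, sub_zero]
          exact hb2 t ht l hK hP D hD
      · rw [Finset.sum_ite_mem, Finset.univ_inter, Finset.sum_const, nsmul_eq_mul, mul_one]
        exact_mod_cast hb1
  · obtain ⟨D, hD⟩ := eta_exists x c0 hc0
    have h2 : (∏ t, eta x (c t) D) ≠ 0 := by
      refine Finset.prod_ne_zero_iff.2 fun t _ => ?_
      exact eta_ne hc0 (hc t) hD
    have h3 : (∏ i, ∏ j, (x i - algebraMap ℂ L (a i j)) ^ ((F i j : ℤ) - cnt c i)) ≠ 0 :=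
      Finset.prod_ne_zero_iff.2 fun i _ => Finset.prod_ne_zero_iff.2 fun j _ =>
        zpow_ne_zero _ (sub_ne_zero.2 (hne i j))
    refine ⟨D, ?_, ?_⟩
    · simp only [frm, Fin.cases_zero, mul_one]
      exact mul_ne_zero h2 h3
    · have h4 : (fun i : Fin d => frm a x c F
          ((Fin.cases 1 (fun s => x (c0 s)) i.succ : L)) D /
          frm a x c F ((Fin.cases 1 (fun s => x (c0 s)) (0 : Fin (d + 1)) : L)) D) =
          fun s => x (c0 s) := by
        funext s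
        simp only [frm, Fin.cases_zero, Fin.cases_succ, mul_one]
        rw [← mul_assoc, mul_div_right_comm, div_self (mul_ne_zero h2 h3), one_mul]
      rw [h4]
      exact hc0.1

end Pool.Agent.H583_U
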