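import Pool.Agent.H583_U.Num

/-!
Weights on bases: levels.
-/

set_option autoImplicit false

namespace Pool.Agent.H583_U

open Finset

section helper

variable {N d n : ℕ}

/-- occurrences in one tuple -/
def cnt1 (u : Fin d → Fin N) (k : Fin N) : ℕ := ∑ s, if u s = k then 1 else 0

theorem cnt1_update (u : Fin d → Fin N) (s : Fin d) (i k : Fin N) :
    cnt1 (Function.update u s i) k + (if u s = k then 1 else 0) =
      cnt1 u k + (if i = k then 1 else 0) := by
  classical
  unfold cnt1
  rw [← Finset.add_sum_erase _ _ (Finset.mem_univ s),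
    ← Finset.add_sum_erase (f := fun s => if u s = k then 1 else 0) _ (Finset.mem_univ s)]
  have h : ∑ x ∈ univ.erase s, (if Function.update u s i x = k then 1 else 0) =
      ∑ x ∈ univ.erase s, (if u x = k then 1 else 0) := by
    refine Finset.sum_congr rfl fun x hx => ?_
    rw [Function.update_of_ne (Finset.ne_of_mem_erase hx)]
  rw [h, Function.update_self]
  ring

theorem cnt_eq (c : Fin n → Fin d → Fin N) (k : Fin N) : cnt c k = ∑ t, cnt1 (c t) k := rfl

theorem cnt_update (c : Fin n → Fin d → Fin N) (t : Fin n) (s : Fin d) (i k : Fin N) :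
    cnt (Function.update c t (Function.update (c t) s i)) k + (if c t s = k then 1 else 0) =
      cnt c k + (if i = k then 1 else 0) := by
  classical
  rw [cnt_eq, cnt_eq, ← Finset.add_sum_erase _ _ (Finset.mem_univ t),
    ← Finset.add_sum_erase (f := fun t => cnt1 (c t) k) _ (Finset.mem_univ t)]
  have h : ∑ x ∈ univ.erase t, cnt1 (Function.update c t (Function.update (c t) s i) x) k =
      ∑ x ∈ univ.erase t, cnt1 (c x) k := by
    refine Finset.sum_congr rfl fun x hx => ?_
    rw [Function.update_of_ne (Finset.ne_of_mem_erase hx)]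
  rw [h, Function.update_self]
  have := cnt1_update (c t) s i k
  omega

/-- the potential -/
noncomputable def pot (α : Fin N → ℕ) (c : Fin n → Fin d → Fin N) : ℝ :=
  ∑ k, (cnt c k : ℝ) ^ 2 / α k

theorem pot_update (α : Fin N → ℕ) (c : Fin n → Fin d → Fin N) (t : Fin n) (s : Fin d)
    (i : Fin N) (hij : c t s ≠ i) :
    pot α (Function.update c t (Function.update (c t) s i)) = pot α c +
      (2 * (cnt c i : ℝ) + 1) / α i + (1 - 2 * (cnt c (c t s) : ℝ)) / α (c t s) := by
  classical
  unfold pot
  have h1 : ∀ k, ((cnt (Function.update c t (Function.update (c t) s i)) k : ℕ) : ℝ) ^ 2 / α k =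
      (cnt c k : ℝ) ^ 2 / α k + (if i = k then (2 * (cnt c k : ℝ) + 1) / α k else 0) +
        (if c t s = k then (1 - 2 * (cnt c k : ℝ)) / α k else 0) := by
    intro k
    have h := cnt_update c t s i k
    have h' : ((cnt (Function.update c t (Function.update (c t) s i)) k : ℕ) : ℝ) +
        (if c t s = k then 1 else 0) = (cnt c k : ℝ) + (if i = k then 1 else 0) := by
      have := congrArg (Nat.cast : ℕ → ℝ) h
      push_cast at this
      exact this
    by_cases h3 : i = k
    · have h4 : ¬ c t s = k := fun h5 => hij (h5.trans h3.symm)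
      rw [if_pos h3, if_neg h4] at h' ⊢
      rw [add_zero] at h'
      rw [h']
      ring
    · by_cases h4 : c t s = k
      · rw [if_neg h3, if_pos h4] at h' ⊢
        have h5 : ((cnt (Function.update c t (Function.update (c t) s i)) k : ℕ) : ℝ) =
          (cnt c k : ℝ) - 1 := by linarith
        rw [h5]
        ring
      · rw [if_neg h3, if_neg h4] at h' ⊢
        rw [add_zero, add_zero] at h'
        rw [h']
        ring
  rw [Finset.sum_congr rfl fun k _ => h1 k, Finset.sum_add_distrib, Finset.sum_add_distrib,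
    Finset.sum_ite_eq, Finset.sum_ite_eq, if_pos (Finset.mem_univ _), if_pos (Finset.mem_univ _)]

theorem key (α : Fin N → ℕ) (hα : ∀ i, 0 < α i) (c : Fin n → Fin d → Fin N) (t : Fin n)
    (s : Fin d) (i : Fin N)
    (hmin : pot α c ≤ pot α (Function.update c t (Function.update (c t) s i))) :
    (cnt c (c t s) : ℝ) / α (c t s) ≤ (cnt c i : ℝ) / α i + 1 := by
  by_cases hij : c t s = i
  · rw [hij]
    linarith
  · rw [pot_update α c t s i hij] at hmin
    set j := c t s with hj
    have hi0 : (1 : ℝ) ≤ α i := by exact_mod_cast hα i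
    have hj0 : (1 : ℝ) ≤ α j := by exact_mod_cast hα j
    have h1 : (2 * (cnt c i : ℝ) + 1) / α i = 2 * ((cnt c i : ℝ) / α i) + 1 / α i := by ring
    have h3 : (1 - 2 * (cnt c j : ℝ)) / α j = 1 / α j - 2 * ((cnt c j : ℝ) / α j) := by ring
    have h4 : (1 : ℝ) / α i ≤ 1 := by
      rw [div_le_one (by linarith)]
      exact hi0
    have h5 : (1 : ℝ) / α j ≤ 1 := by
      rw [div_le_one (by linarith)]
      exact hj0
    rw [h1, h3] at hmin
    linarith

end helper

/-- TARGET U3a. Proof. Put `r i = cnt c i / α i`. `C = N`. Given `W`, take `n` large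
(`n > (∑ α) * (W + 1)`, `n > 0`), and among all lists `c : Fin n → Fin d → Fin N` with all `c t` in
`Bs` (finitely many, nonempty) one that minimises `∑ i, (cnt c i) ^ 2 / α i`.
(1) If `c t s = j`, `j ≠ i` and `update (c t) s i ∈ Bs`, replacing `c t` by it changes `cnt` by `-1` at
`j` and `+1` at `i`, so minimality gives `(1 - 2 cnt j) / α j + (1 + 2 cnt i) / α i ≥ 0`, hence
`r j ≤ r i + 1`.
(2) For `i = b s0` with `b ∈ Bs`: for every `t` there is `s` with `update (c t) s i ∈ Bs` (the exchange
hypothesis with `S = ∅`), so `r (c t s) ≤ r i + 1`; therefore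
`n ≤ ∑ over j with r j ≤ r i + 1 of cnt j ≤ (∑ α) (r i + 1)`, and `r i ≥ W`.
(3) Given `θ`: the `N + 1` disjoint intervals `(θ + k, θ + k + 1]`, `k = 0 … N`, cannot all contain one
of the `N` numbers `r i`; take `k` such that `(θ + k, θ + k + 1]` contains none, and
`S = {i | r i ≤ θ + k}`. If `Dep (c t) S i` fails for some `i ∈ S`, the exchange hypothesis gives `s`
with `c t s ∉ S` and `update (c t) s i ∈ Bs`, so `θ + k < r (c t s) ≤ r i + 1 ≤ θ + k + 1`, a
contradiction. -/
theorem levels_all : S_levels := by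
  classical
  intro N d Bs hBs Dep hex hdep α hα
  refine ⟨N, Nat.cast_nonneg N, ?_⟩
  intro W
  obtain ⟨n0, hn0⟩ := exists_nat_gt ((∑ i, (α i : ℝ)) * (W + 1))
  obtain ⟨n, hn, hnW⟩ : ∃ n : ℕ, 0 < n ∧ (∑ i, (α i : ℝ)) * (W + 1) < n :=
    ⟨n0 + 1, Nat.succ_pos _, by push_cast; linarith⟩
  obtain ⟨b0, hb0⟩ := hBs
  let X := {c : Fin n → Fin d → Fin N // ∀ t, c t ∈ Bs}
  haveI : Nonempty X := ⟨⟨fun _ => b0, fun _ => hb0⟩⟩
  haveI : Finite X := Subtype.finite
  obtain ⟨⟨c, hc⟩, hmin⟩ := Finite.exists_min (fun c : X => pot α c.1)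
  have hkey : ∀ t s i, Function.update (c t) s i ∈ Bs →
      (cnt c (c t s) : ℝ) / α (c t s) ≤ (cnt c i : ℝ) / α i + 1 := by
    intro t s i hu
    refine key α hα c t s i ?_
    refine hmin ⟨Function.update c t (Function.update (c t) s i), ?_⟩
    intro t'
    by_cases h : t' = t
    · subst h
      rw [Function.update_self]
      exact hu
    · rw [Function.update_of_ne h]
      exact hc t'
  have hα0 : ∀ i, (0 : ℝ) < α i := fun i => by exact_mod_cast hα i
  refine ⟨n, c, hn, hc, ?_, ?_⟩
  · intro b hb s0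
    set i := b s0 with hi
    set r : Fin N → ℝ := fun j => (cnt c j : ℝ) / α j with hr
    have h1 : ∀ t, ∃ s, r (c t s) ≤ r i + 1 := by
      intro t
      obtain ⟨s, _, hs⟩ := hex (c t) (hc t) ∅ i (hdep b hb (c t) (hc t) s0)
      exact ⟨s, hkey t s i hs⟩
    have h3 : (n : ℝ) ≤ ∑ j ∈ univ.filter (fun j => r j ≤ r i + 1), (cnt c j : ℝ) := by
      have h4 : n ≤ ∑ j ∈ univ.filter (fun j => r j ≤ r i + 1), cnt c j := by
        have h5 : ∑ j ∈ univ.filter (fun j => r j ≤ r i + 1), cnt c j =
            ∑ t, ∑ s, ∑ j ∈ univ.filter (fun j => r j ≤ r i + 1), (if c t s = j then 1 else 0) := by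
          unfold cnt
          rw [Finset.sum_comm]
          refine Finset.sum_congr rfl fun t _ => ?_
          rw [Finset.sum_comm]
        rw [h5]
        have h6 : ∀ t : Fin n, 1 ≤ ∑ s, ∑ j ∈ univ.filter (fun j => r j ≤ r i + 1),
            (if c t s = j then 1 else 0) := by
          intro t
          obtain ⟨s, hs⟩ := h1 t
          have h7 : ∑ j ∈ univ.filter (fun j => r j ≤ r i + 1), (if c t s = j then 1 else 0) =
              1 := by
            rw [Finset.sum_ite_eq, if_pos]
            rw [Finset.mem_filter]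
            exact ⟨Finset.mem_univ _, hs⟩
          calc 1 = ∑ j ∈ univ.filter (fun j => r j ≤ r i + 1), (if c t s = j then 1 else 0) :=
                h7.symm
            _ ≤ _ := Finset.single_le_sum (f := fun s => ∑ j ∈ univ.filter
                (fun j => r j ≤ r i + 1), (if c t s = j then 1 else 0))
                (fun _ _ => Nat.zero_le _) (Finset.mem_univ s)
        calc n = ∑ _t : Fin n, 1 := by simp
          _ ≤ _ := Finset.sum_le_sum fun t _ => h6 t
      exact_mod_cast h4
    have hri : 0 ≤ r i := div_nonneg (Nat.cast_nonneg _) (hα0 i).le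
    have h4 : (n : ℝ) ≤ (r i + 1) * ∑ j, (α j : ℝ) := by
      refine h3.trans ?_
      rw [Finset.mul_sum]
      refine (Finset.sum_le_sum (g := fun j => (r i + 1) * (α j : ℝ)) ?_).trans
        (Finset.sum_le_sum_of_subset_of_nonneg (Finset.filter_subset _ _) ?_)
      · intro j hj
        have h5 := (Finset.mem_filter.1 hj).2
        simp only [hr] at h5
        rw [div_le_iff₀ (hα0 j)] at h5
        exact h5
      · intro j _ _
        exact mul_nonneg (by linarith) (hα0 j).le
    have h5 : W ≤ r i := by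
      by_contra hlt
      push Not at hlt
      have h6 : (r i + 1) * ∑ j, (α j : ℝ) ≤ (W + 1) * ∑ j, (α j : ℝ) :=
        mul_le_mul_of_nonneg_right (by linarith) (Finset.sum_nonneg fun j _ => (hα0 j).le)
      rw [mul_comm] at hnW
      linarith
    simp only [hr] at h5
    rwa [le_div_iff₀ (hα0 i)] at h5
  · intro θ
    set r : Fin N → ℝ := fun j => (cnt c j : ℝ) / α j with hr
    obtain ⟨k, hkN, hk⟩ : ∃ k : ℕ, k ≤ N ∧ ∀ i, ¬ (θ + k < r i ∧ r i ≤ θ + k + 1) := by
      by_contra hcon
      push Not at hcon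
      have h1 : ∀ k : Fin (N + 1), ∃ i, θ + (k : ℕ) < r i ∧ r i ≤ θ + (k : ℕ) + 1 := fun k =>
        hcon k (by have := k.2; omega)
      choose g hg using h1
      have hinj : Function.Injective g := by
        intro k k' hkk
        have h3 := hg k
        have h4 := hg k'
        rw [← hkk] at h4
        have h5 : ((k : ℕ) : ℝ) < ((k' : ℕ) : ℝ) + 1 := by linarith [h3.1, h4.2]
        have h6 : ((k' : ℕ) : ℝ) < ((k : ℕ) : ℝ) + 1 := by linarith [h4.1, h3.2]
        have h7 : (k : ℕ) < (k' : ℕ) + 1 := by exact_mod_cast h5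
        have h8 : (k' : ℕ) < (k : ℕ) + 1 := by exact_mod_cast h6
        exact Fin.ext (by omega)
      have := Fintype.card_le_of_injective g hinj
      simp at this
    have hk0 : (0 : ℝ) ≤ k := Nat.cast_nonneg k
    have hkN' : (k : ℝ) ≤ N := by exact_mod_cast hkN
    refine ⟨univ.filter (fun i => r i ≤ θ + k), ?_, ?_, ?_⟩
    · intro i hi
      rw [Finset.mem_filter]
      refine ⟨Finset.mem_univ _, ?_⟩
      have h1 : r i ≤ θ := by
        simp only [hr]
        rwa [div_le_iff₀ (hα0 i)]
      linarith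
    · intro i hi
      have h1 := (Finset.mem_filter.1 hi).2
      simp only [hr] at h1
      rw [div_le_iff₀ (hα0 i)] at h1
      refine h1.trans ?_
      exact mul_le_mul_of_nonneg_right (by linarith) (hα0 i).le
    · intro t i hi
      by_contra hnd
      obtain ⟨s, hs, hu⟩ := hex (c t) (hc t) _ i hnd
      have h1 := hkey t s i hu
      have h3 := (Finset.mem_filter.1 hi).2
      have h4 : θ + k < r (c t s) := by
        by_contra h5
        push Not at h5
        exact hs (Finset.mem_filter.2 ⟨Finset.mem_univ _, h5⟩)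
      refine hk (c t s) ⟨h4, ?_⟩
      simp only [hr] at h3 ⊢
      linarith

end Pool.Agent.H583_U
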