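import Pool.Agent.H583_U.Num

/-!
Weights on bases: the exponents.
-/

set_option autoImplicit false

namespace Pool.Agent.H583_U

namespace U3b

lemma div_le {a b : ℕ} : ((a / b : ℕ) : ℝ) ≤ (a : ℝ) / b := Nat.cast_div_le

lemma lt_div {a b : ℕ} (hb : 0 < b) : (a : ℝ) / b - 1 ≤ ((a / b : ℕ) : ℝ) := by
  have h1 : a < b * (a / b + 1) := Nat.lt_mul_div_succ a hb
  have h2 : (a : ℝ) < b * (((a / b : ℕ) : ℝ) + 1) := by exact_mod_cast h1
  have hb' : (0 : ℝ) < b := by exact_mod_cast hb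
  have h3 : (a : ℝ) / b < ((a / b : ℕ) : ℝ) + 1 := by
    rw [div_lt_iff₀ hb']
    linarith
  linarith

/-- first claim, for one index -/
lemma first {P w W a x q : ℕ} {β : Fin P → ℕ} (ha : 0 < a) (hβ : ∑ j, β j < a * q)
    (hW : P * w + 1 ≤ W) (hx : (W : ℝ) * a ≤ x) : ∑ j, (x * β j / a + w) < x * q := by
  have ha' : (0 : ℝ) < a := by exact_mod_cast ha
  obtain ⟨r, hr⟩ : ∃ r : ℝ, r = (x : ℝ) / a := ⟨_, rfl⟩
  have hrW : (W : ℝ) ≤ r := by
    rw [hr, le_div_iff₀ ha']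
    exact hx
  have hW' : (P : ℝ) * w + 1 ≤ W := by exact_mod_cast hW
  have hxr : (x : ℝ) = r * a := by
    rw [hr]
    field_simp
  have h1 : ∑ j, (((x * β j / a + w : ℕ)) : ℝ) ≤ ∑ j : Fin P, (r * β j + w) := by
    refine Finset.sum_le_sum fun j _ => ?_
    push_cast
    have h2 : ((x * β j / a : ℕ) : ℝ) ≤ ((x * β j : ℕ) : ℝ) / a := div_le
    have h3 : ((x * β j : ℕ) : ℝ) / a = r * β j := by
      rw [hr]
      push_cast
      ring
    rw [h3] at h2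
    linarith
  have h2 : ∑ j : Fin P, (r * β j + w) = r * ((∑ j, β j : ℕ) : ℝ) + P * w := by
    rw [Finset.sum_add_distrib, ← Finset.mul_sum]
    simp
  have h3 : ((∑ j, β j : ℕ) : ℝ) + 1 ≤ a * q := by exact_mod_cast hβ
  have hr0 : 0 ≤ r := by
    have : (0 : ℝ) ≤ W := Nat.cast_nonneg _
    linarith
  have h4 : r * (((∑ j, β j : ℕ) : ℝ) + 1) ≤ r * (a * q) := mul_le_mul_of_nonneg_left h3 hr0
  have h5 : ((∑ j, (x * β j / a + w) : ℕ) : ℝ) < ((x * q : ℕ) : ℝ) := by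
    rw [Nat.cast_sum, Nat.cast_mul, hxr]
    calc ∑ j, (((x * β j / a + w : ℕ)) : ℝ) ≤ ∑ j : Fin P, (r * β j + w) := h1
      _ = r * ((∑ j, β j : ℕ) : ℝ) + P * w := h2
      _ < r * (((∑ j, β j : ℕ) : ℝ) + 1) := by linarith
      _ ≤ r * (a * q) := h4
      _ = r * a * q := by ring
  exact_mod_cast h5

/-- lower bound for one index -/
lemma low {P w a x : ℕ} {β k : Fin P → ℕ} (ha : 0 < a) {θ : ℝ} (hθ : k ≠ 0 → θ ≤ (x : ℝ) / a) :
    θ * ((∑ j, β j * k j : ℕ) : ℝ) + w * ((∑ j, k j : ℕ) : ℝ) ≤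
      ((∑ j, (x * β j / a + (w + 1)) * k j : ℕ) : ℝ) := by
  by_cases hk : k = 0
  · rw [hk]
    simp
  · have h0 := hθ hk
    push_cast
    rw [Finset.mul_sum, Finset.mul_sum, ← Finset.sum_add_distrib]
    refine Finset.sum_le_sum fun j _ => ?_
    have h1 : ((x * β j : ℕ) : ℝ) / a - 1 ≤ ((x * β j / a : ℕ) : ℝ) := lt_div ha
    have h2 : ((x * β j : ℕ) : ℝ) / a = (x : ℝ) / a * β j := by
      push_cast
      ring
    rw [h2] at h1
    have h3 : θ * β j ≤ (x : ℝ) / a * β j := mul_le_mul_of_nonneg_right h0 (Nat.cast_nonneg _)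
    have h4 : θ * β j + w ≤ ((x * β j / a : ℕ) : ℝ) + (w + 1) := by linarith
    calc θ * ((β j : ℝ) * k j) + w * k j = (θ * β j + w) * k j := by ring
      _ ≤ _ := mul_le_mul_of_nonneg_right h4 (Nat.cast_nonneg _)

end U3b

open U3b

/-- TARGET U3b. -/
theorem weights (hlev : S_levels) {N d : ℕ} (Bs : Set (Fin d → Fin N)) (hBs : Bs.Nonempty)
    (Dep : (Fin d → Fin N) → Finset (Fin N) → Fin N → Prop)
    (hex : ∀ c ∈ Bs, ∀ (S : Finset (Fin N)) (i : Fin N), ¬ Dep c S i →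
      ∃ s, c s ∉ S ∧ Function.update c s i ∈ Bs)
    (hloop : ∀ b ∈ Bs, ∀ c ∈ Bs, ∀ s, ¬ Dep c ∅ (b s))
    (p : Fin N → ℕ) (α : Fin N → ℕ) (β : ∀ i, Fin (p i) → ℕ)
    (hαβ : ∀ i, ∑ j, β i j < α i * (p i - 2)) :
    ∃ (n : ℕ) (c : Fin n → Fin d → Fin N) (F : ∀ i, Fin (p i) → ℕ), 0 < n ∧ (∀ t, c t ∈ Bs) ∧
      (∀ b ∈ Bs, ∀ s, ∑ j, F (b s) j < cnt c (b s) * (p (b s) - 2)) ∧
      ∀ k : ∀ i, Fin (p i) → ℕ, k ≠ 0 →
        ∑ i, (if k i = 0 then 0 else α i) ≤ ∑ i, ∑ j, β i j * k i j →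
        ∃ S : Finset (Fin N), (∃ i ∈ S, k i ≠ 0) ∧ (∀ t, ∀ i ∈ S, Dep (c t) S i) ∧
          ∑ i ∈ S, (if k i = 0 then 0 else cnt c i) ≤ ∑ i, ∑ j, F i j * k i j := by
  classical
  have hα : ∀ i, 0 < α i := by
    intro i
    by_contra h
    have h1 : α i = 0 := by omega
    have h2 := hαβ i
    rw [h1, zero_mul] at h2
    exact Nat.not_lt_zero _ h2
  obtain ⟨C, hC, hlev'⟩ := hlev N d Bs hBs Dep hex hloop α hα
  obtain ⟨w, hw⟩ : ∃ w : ℕ, w = ⌈C * ∑ i, (α i : ℝ)⌉₊ := ⟨_, rfl⟩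
  have hwC : C * ∑ i, (α i : ℝ) ≤ w := by
    rw [hw]
    exact Nat.le_ceil _
  obtain ⟨n, c, hn, hc, hW, hθ⟩ := hlev' (((∑ i, p i) * (w + 1) + 1 : ℕ) : ℝ)
  refine ⟨n, c, fun i j => cnt c i * β i j / α i + (w + 1), hn, hc, fun b hb s => ?_, fun k hk hle => ?_⟩
  · refine first (hα (b s)) (hαβ (b s)) ?_ (hW b hb s)
    have h1 : p (b s) ≤ ∑ i, p i := Finset.single_le_sum (f := p) (fun _ _ => Nat.zero_le _) (Finset.mem_univ _)
    have h2 := Nat.mul_le_mul_right (w + 1) h1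
    omega
  · -- the index of the minimum
    obtain ⟨i1, hi1⟩ : ∃ i, k i ≠ 0 := by
      by_contra hcon
      push Not at hcon
      exact hk (funext hcon)
    obtain ⟨i0, hi0, hmin⟩ := Finset.exists_min_image (Finset.univ.filter fun i => k i ≠ 0)
      (fun i => (cnt c i : ℝ) / α i) ⟨i1, Finset.mem_filter.2 ⟨Finset.mem_univ _, hi1⟩⟩
    have hi0' : k i0 ≠ 0 := (Finset.mem_filter.1 hi0).2
    obtain ⟨θ, hθe⟩ : ∃ θ : ℝ, θ = (cnt c i0 : ℝ) / α i0 := ⟨_, rfl⟩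
    rw [← hθe] at hmin
    have hθ0 : 0 ≤ θ := by
      rw [hθe]
      positivity
    obtain ⟨S, hS1, hS2, hS3⟩ := hθ θ
    refine ⟨S, ⟨i0, hS1 i0 ?_, hi0'⟩, hS3, ?_⟩
    · have h1 : (0 : ℝ) < α i0 := by exact_mod_cast hα i0
      rw [hθe, div_mul_cancel₀ _ h1.ne']
    -- left hand side
    have hL : ((∑ i ∈ S, (if k i = 0 then 0 else cnt c i) : ℕ) : ℝ) ≤
        θ * ((∑ i, (if k i = 0 then 0 else α i) : ℕ) : ℝ) + C * ∑ i, (α i : ℝ) := by
      have h1 : ((∑ i ∈ S, (if k i = 0 then 0 else cnt c i) : ℕ) : ℝ) ≤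
          ∑ i ∈ S, (θ * ((if k i = 0 then 0 else α i : ℕ) : ℝ) + C * α i) := by
        rw [Nat.cast_sum]
        refine Finset.sum_le_sum fun i hi => ?_
        by_cases hki : k i = 0
        · rw [if_pos hki, if_pos hki]
          have : 0 ≤ C * (α i : ℝ) := mul_nonneg hC (Nat.cast_nonneg _)
          push_cast
          linarith
        · rw [if_neg hki, if_neg hki]
          have := hS2 i hi
          linarith
      refine h1.trans ?_
      have h2 : ∑ i ∈ S, (θ * ((if k i = 0 then 0 else α i : ℕ) : ℝ) + C * α i) ≤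
          ∑ i, (θ * ((if k i = 0 then 0 else α i : ℕ) : ℝ) + C * α i) := by
        refine Finset.sum_le_sum_of_subset_of_nonneg (Finset.subset_univ _) fun i _ _ => ?_
        exact add_nonneg (mul_nonneg hθ0 (Nat.cast_nonneg _)) (mul_nonneg hC (Nat.cast_nonneg _))
      refine h2.trans (le_of_eq ?_)
      rw [Finset.sum_add_distrib, ← Finset.mul_sum, ← Finset.mul_sum, Nat.cast_sum]
    -- right hand side
    have hR : θ * ((∑ i, ∑ j, β i j * k i j : ℕ) : ℝ) + w * ((∑ i, ∑ j, k i j : ℕ) : ℝ) ≤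
        ((∑ i, ∑ j, (cnt c i * β i j / α i + (w + 1)) * k i j : ℕ) : ℝ) := by
      rw [Nat.cast_sum, Nat.cast_sum, Nat.cast_sum, Finset.mul_sum, Finset.mul_sum,
        ← Finset.sum_add_distrib]
      refine Finset.sum_le_sum fun i _ => low (hα i) fun hki => ?_
      exact hmin i (Finset.mem_filter.2 ⟨Finset.mem_univ _, hki⟩)
    have hk1 : (1 : ℝ) ≤ ((∑ i, ∑ j, k i j : ℕ) : ℝ) := by
      have h1 : ∃ j, k i0 j ≠ 0 := by
        by_contra hcon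
        push Not at hcon
        exact hi0' (funext hcon)
      obtain ⟨j, hj⟩ := h1
      have h2 : k i0 j ≤ ∑ j, k i0 j :=
        Finset.single_le_sum (f := k i0) (fun _ _ => Nat.zero_le _) (Finset.mem_univ _)
      have h3 : ∑ j, k i0 j ≤ ∑ i, ∑ j, k i j :=
        Finset.single_le_sum (f := fun i => ∑ j, k i j) (fun _ _ => Nat.zero_le _) (Finset.mem_univ _)
      have h4 : 1 ≤ ∑ i, ∑ j, k i j := by omega
      exact_mod_cast h4
    have hle' : ((∑ i, (if k i = 0 then 0 else α i) : ℕ) : ℝ) ≤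
        ((∑ i, ∑ j, β i j * k i j : ℕ) : ℝ) := by exact_mod_cast hle
    have h5 := mul_le_mul_of_nonneg_left hle' hθ0
    have h6 : (w : ℝ) * 1 ≤ w * ((∑ i, ∑ j, k i j : ℕ) : ℝ) :=
      mul_le_mul_of_nonneg_left hk1 (Nat.cast_nonneg _)
    have h7 : ((∑ i ∈ S, (if k i = 0 then 0 else cnt c i) : ℕ) : ℝ) ≤
        ((∑ i, ∑ j, (cnt c i * β i j / α i + (w + 1)) * k i j : ℕ) : ℝ) := by linarith
    exact_mod_cast h7

end Pool.Agent.H583_U
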