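import Mathlib

/-!
Exchange in transcendence bases.
-/

set_option autoImplicit false

namespace Pool.Agent.H583_U

variable {L : Type} [Field L] [Algebra ℂ L] {N d : ℕ}

theorem exchange_alg_mono {s t : Set L} (hst : s ⊆ t)
    (h : Algebra.IsAlgebraic (Algebra.adjoin ℂ s) L) : Algebra.IsAlgebraic (Algebra.adjoin ℂ t) L := by
  have hle : Algebra.adjoin ℂ s ≤ Algebra.adjoin ℂ t := Algebra.adjoin_mono hst
  letI : Algebra (Algebra.adjoin ℂ s) (Algebra.adjoin ℂ t) := (Subalgebra.inclusion hle).toAlgebra
  haveI : IsScalarTower (Algebra.adjoin ℂ s) (Algebra.adjoin ℂ t) L :=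
    IsScalarTower.of_algebraMap_eq fun _ => rfl
  exact Algebra.IsAlgebraic.extendScalars (R := Algebra.adjoin ℂ s) (S := Algebra.adjoin ℂ t)
    (Subalgebra.inclusion_injective hle)

/-- TARGET U4. Exchange: if `x i` is not algebraic over the field generated by the members of the
transcendence basis `x ∘ c` with indices in `S`, then one of the other members can be replaced by
`x i`. -/
theorem exchange {x : Fin N → L} (hd : Algebra.trdeg ℂ L = d) {c : Fin d → Fin N}
    (hc : IsTranscendenceBasis ℂ fun s => x (c s)) (S : Finset (Fin N)) (i : Fin N)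
    (h : ¬ IsAlgebraic (IntermediateField.adjoin ℂ ((fun s => x (c s)) '' {s | c s ∈ S})) (x i)) :
    ∃ s, c s ∉ S ∧ IsTranscendenceBasis ℂ fun s' => x (Function.update c s i s') := by
  classical
  set y : Fin d → L := fun s => x (c s) with hy
  set I : Set (Fin d) := {s | c s ∈ S} with hI
  have hnt : ¬ IsAlgebraic (Algebra.adjoin ℂ (y '' I)) (x i) := by
    intro hal
    apply h
    have hle : Algebra.adjoin ℂ (y '' I) ≤ (IntermediateField.adjoin ℂ (y '' I)).toSubalgebra :=
      IntermediateField.algebra_adjoin_le_adjoin ℂ (y '' I)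
    letI : Algebra (Algebra.adjoin ℂ (y '' I)) (IntermediateField.adjoin ℂ (y '' I)) :=
      (Subalgebra.inclusion hle).toAlgebra
    haveI : IsScalarTower (Algebra.adjoin ℂ (y '' I)) (IntermediateField.adjoin ℂ (y '' I)) L :=
      IsScalarTower.of_algebraMap_eq fun _ => rfl
    exact hal.extendScalars (Subalgebra.inclusion_injective hle)
  by_cases ha : x i ∈ Set.range y
  · obtain ⟨s0, hs0⟩ := ha
    refine ⟨s0, ?_, ?_⟩
    · intro hcs
      apply h
      have hm : x i ∈ IntermediateField.adjoin ℂ (y '' I) := by
        rw [← hs0]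
        exact IntermediateField.subset_adjoin _ _ ⟨s0, hcs, rfl⟩
      exact isAlgebraic_algebraMap (⟨x i, hm⟩ : IntermediateField.adjoin ℂ (y '' I))
    · have h2 : (fun s' => x (Function.update c s0 i s')) = y := by
        funext s
        by_cases hss : s = s0
        · rw [hss, Function.update_self]
          exact hs0.symm
        · rw [Function.update_of_ne hss]
      rw [h2]
      exact hc
  · have hIndI : AlgebraicIndepOn ℂ id (y '' I) := by
      have h1 : AlgebraicIndepOn ℂ id (Set.range y) := hc.1.coe_range
      exact h1.mono (Set.image_subset_range y I)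
    have hP : AlgebraicIndepOn ℂ id (insert (x i) (y '' I)) :=
      AlgebraicIndepOn.insert hIndI (by rw [Set.image_id]; exact hnt)
    haveI halg : Algebra.IsAlgebraic (Algebra.adjoin ℂ (insert (x i) (Set.range y))) L :=
      exchange_alg_mono (Set.subset_insert _ _) hc.isAlgebraic
    obtain ⟨u, hu1, hu2, hu⟩ := exists_isTranscendenceBasis_between (R := ℂ)
      (insert (x i) (y '' I)) (insert (x i) (Set.range y))
      (Set.insert_subset_insert (Set.image_subset_range y I)) hP
    -- some member of the basis is not in `u`
    obtain ⟨s0, hs0⟩ : ∃ s0, y s0 ∉ u := by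
      by_contra hcon
      push Not at hcon
      have hsub : Set.range y ⊆ u := by
        rintro _ ⟨s, rfl⟩
        exact hcon s
      have heq := hc.2 u hu.1 hsub
      apply ha
      rw [heq]
      exact hu1 (Set.mem_insert _ _)
    refine ⟨s0, ?_, ?_⟩
    · intro hcs
      exact hs0 (hu1 (Set.mem_insert_of_mem _ ⟨s0, hcs, rfl⟩))
    · set z : Fin d → L := fun s' => x (Function.update c s0 i s') with hz
      have hrange : u ⊆ Set.range z := by
        intro w hw
        rcases hu2 hw with hwa | ⟨s, rfl⟩
        · refine ⟨s0, ?_⟩
          rw [hz]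
          simp only [Function.update_self]
          exact hwa.symm
        · have hss : s ≠ s0 := by
            rintro rfl
            exact hs0 hw
          refine ⟨s, ?_⟩
          rw [hz]
          simp only [Function.update_of_ne hss]
          rfl
      have hualg : Algebra.IsAlgebraic (Algebra.adjoin ℂ u) L := by
        have := hu.isAlgebraic
        rwa [Subtype.range_coe] at this
      haveI : Algebra.IsAlgebraic (Algebra.adjoin ℂ (Set.range z)) L :=
        exchange_alg_mono hrange hualg
      exact Algebra.IsAlgebraic.isTranscendenceBasis_of_le_trdeg_of_finite ℂ z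
        (by rw [hd, Cardinal.mk_fin])

end Pool.Agent.H583_U
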