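import Pool.Agent.H583_U.U2
import Pool.Agent.H583_U.U1b
import Pool.Agent.H583_U.U3b
import Pool.Agent.H583_U.U4

/-!
Logarithmic general type for the multiplicity criterion.
-/

set_option autoImplicit false
set_option linter.overlappingInstances false

open FF Pool.Agent.W602.GT Pool.Agent.W603.LV Pool.Agent.W602.Cov.G

namespace Pool.Agent.H583_U

open Pool.Agent.H583_GP (eta eta_mul eta_ge eta_reg eta_exists eta_ne exists_basis0 exists_basis
  const_of_alg)
open Pool.Agent.H583_GQ (lgB lg_place lg_eta_place mult NGood)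
open Pool.Agent.H583_GP (Branch)

variable {N d : ℕ} {p : Fin N → ℕ} {a : ∀ i, Fin (p i) → ℂ} {L : Type} [Field L] [Algebra ℂ L]

/-- the number of the forms with a factor from the set -/
theorem card_bad {n : ℕ} (c : Fin n → Fin d → Fin N) (S : Finset (Fin N)) (k : Fin N → Prop)
    [DecidablePred k] (bad : Finset (Fin n)) (hbad : ∀ t ∈ bad, ∃ s, c t s ∈ S ∧ ¬ k (c t s)) :
    bad.card ≤ ∑ i ∈ S, (if k i then 0 else cnt c i) := by
  classical
  have h1 : ∑ i ∈ S, (if k i then 0 else cnt c i) =
      ∑ t, ∑ s, if c t s ∈ S ∧ ¬ k (c t s) then 1 else 0 := by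
    unfold cnt
    have h2 : ∀ i ∈ S, (if k i then 0 else ∑ t, ∑ s, if c t s = i then 1 else 0) =
        ∑ t, ∑ s, if k i then 0 else if c t s = i then 1 else 0 := by
      intro i _
      split_ifs <;> simp
    rw [Finset.sum_congr rfl h2, Finset.sum_comm]
    refine Finset.sum_congr rfl fun t _ => ?_
    rw [Finset.sum_comm]
    refine Finset.sum_congr rfl fun s _ => ?_
    by_cases hs : c t s ∈ S ∧ ¬ k (c t s)
    · rw [if_pos hs, Finset.sum_eq_single (c t s)]
      · rw [if_neg hs.2, if_pos rfl]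
      · intro i _ hi
        split_ifs with h3 h4
        · rfl
        · exact absurd h4.symm hi
        · rfl
      · intro h3
        exact absurd hs.1 h3
    · rw [if_neg hs]
      refine Finset.sum_eq_zero fun i hi => ?_
      split_ifs with h3 h4
      · rfl
      · exact absurd ⟨h4 ▸ hi, h4 ▸ h3⟩ hs
      · rfl
  rw [h1, Finset.card_eq_sum_ones]
  calc ∑ t ∈ bad, 1 ≤ ∑ t ∈ bad, ∑ s, (if c t s ∈ S ∧ ¬ k (c t s) then 1 else 0) := by
        refine Finset.sum_le_sum fun t ht => ?_
        obtain ⟨s, hs⟩ := hbad t ht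
        have h3 := Finset.single_le_sum (f := fun s => if c t s ∈ S ∧ ¬ k (c t s) then 1 else 0)
          (fun _ _ => Nat.zero_le _) (Finset.mem_univ s)
        simp only [if_pos hs] at h3
        exact h3
    _ ≤ _ := Finset.sum_le_univ_sum_of_nonneg fun _ => Nat.zero_le _

/-- **Logarithmic general type**, for the criterion with the weights of the functions with
nonzero multiplicities -/
theorem general_good (hlev : S_levels) (hg : S_eta_good) {α : Fin N → ℕ}
    {β : ∀ i, Fin (p i) → ℕ} (ha : ∀ i, Function.Injective (a i))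
    (hαβ : ∀ i, ∑ j, β i j < α i * (p i - 2)) {x : Fin N → L}
    (hne : ∀ i j, x i ≠ algebraMap ℂ L (a i j))
    (halg : Algebra.IsAlgebraic (IntermediateField.adjoin ℂ (Set.range x)) L)
    (hd : Algebra.trdeg ℂ L = d) {Bd : Place ℂ L → Prop}
    (hmult : ∀ P : Place ℂ L, Divisorial d P → ¬ Bd P →
      ∑ i, (if mult a P x i = 0 then 0 else α i) ≤ ∑ i, ∑ j, β i j * mult a P x i j) :
    LogGeneralType ℂ L d Bd := by
  classical
  have hp : ∀ i, 3 ≤ p i := by
    intro i
    have h1 := hαβ i
    by_contra hcon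
    have h2 : p i - 2 = 0 := by omega
    rw [h2, mul_zero] at h1
    omega
  obtain ⟨c0, hc0⟩ := exists_basis0 halg hd
  obtain ⟨n, c, F, hn, hc, hF, hk⟩ := weights hlev
    {c : Fin d → Fin N | IsTranscendenceBasis ℂ fun s => x (c s)} ⟨c0, hc0⟩
    (fun c S i => IsAlgebraic
      (IntermediateField.adjoin ℂ ((fun s => x (c s)) '' {s | c s ∈ S})) (x i))
    (fun c hc S i h => exchange hd hc S i h)
    (fun b hb c hc s h => by
      have h1 : (fun s => x (c s)) '' {s | c s ∈ (∅ : Finset (Fin N))} = ∅ := by simp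
      rw [h1, IntermediateField.adjoin_empty] at h
      exact hb.1.transcendental s (h.restrictScalars ℂ)) p α β hαβ
  refine general_of_bases (F := F) ha hp hn hne halg hd hc (fun i hi => ?_)
    fun P hPd hPB hK0 => ?_
  · obtain ⟨b, ⟨s, rfl⟩, hb⟩ := exists_basis halg hd hi
    have h1 := hF b hb s
    have h2 : (2 : ℕ) ≤ p (b s) := by have := hp (b s); omega
    have h3 : ((∑ j, F (b s) j : ℕ) : ℤ) < ((cnt c (b s) * (p (b s) - 2) : ℕ) : ℤ) := by
      exact_mod_cast h1
    rw [Nat.cast_mul, Nat.cast_sub h2] at h3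
    push_cast at h3
    exact h3
  · obtain ⟨S, ⟨i0, hi0, hk0⟩, hdep, hS⟩ := hk (mult a P x) hK0 (hmult P hPd hPB)
    refine ⟨Finset.univ.filter fun t => ∃ s, c t s ∈ S ∧ ¬ mult a P x (c t s) = 0, ?_, ?_⟩
    · refine le_trans (card_bad c S (fun i => mult a P x i = 0) _ fun t ht => ?_) hS
      exact (Finset.mem_filter.1 ht).2
    · intro t ht l hK hP D hD
      have ht' : ∀ s, c t s ∈ S → mult a P x (c t s) = 0 := by
        intro s hs
        by_contra hcon
        exact ht (Finset.mem_filter.2 ⟨Finset.mem_univ _, s, hs, hcon⟩)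
      exact eta_place_good hg ha hp P D hD hne hK hP (hc t) S ht' hk0 (hdep t i0 hi0)

end Pool.Agent.H583_U
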