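import Pool.Agent.H583_U.U5
import Pool.Agent.H583_GQ.Main

/-!
Subvarieties of the varieties with the multiplicity criterion.
-/

set_option autoImplicit false
set_option linter.overlappingInstances false
set_option linter.unusedSectionVars false

open FF IntermediateField

namespace Pool.Agent.H583_U

open Pool.Agent.W602.GT Pool.Agent.TH466.QG Pool.Agent.W603.BP Pool.Agent.H583_GQ

variable {M : ℕ} {L : Type} [Field L] [Algebra ℂ L] {y : Fin (M + 1) → L}
  {N : ℕ} {p : Fin N → ℕ} {a : ∀ i, Fin (p i) → ℂ}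
  {D : Set (MvPolynomial (Fin (M + 1)) ℂ)} {x : Fin N → L} {T : Set (∀ i, Fin (p i) → ℕ)}

/-- **Subvarieties**, for `Good`. -/
theorem stronglyG (hlev : S_levels) (hg : S_eta_good) (ha : ∀ i, Function.Injective (a i))
    (hF : Family a y D x T) (hy : y ≠ 0)
    (hgen : coords ℂ y = ⊤) (hT : Pool.Agent.H583_GQ.Good p T) : StronglyLog y D := by
  obtain ⟨α, β, hαβ, hk⟩ := hT.nat
  obtain ⟨R, hR, hyR, h⟩ := hF.spec hy hgen
  refine ⟨R, hR, hyR, fun E _ _ w z hz _ hzR hw htr => ?_⟩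
  obtain ⟨i1, hi1, x', h1, h2, h3⟩ := h E z ⟨hz.ne, hz.spec⟩ hzR
  refine general_good hlev hg ha hαβ h1 ?_ htr fun P _ hP => hk _ (h3 P hP)
  exact alg_over (k := ℂ) (E := E) (K := E) (adjoin_norm hz.gen hi1) _ h2

end Pool.Agent.H583_U
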