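import Pool.Agent.H583_U.U6
import Pool.Agent.H583_U.U3a
import Pool.Agent.H583_U.U1
import Pool.Agent.H583_GQ.Top

/-!
Subvarieties: the criterion and the covers.
-/

set_option autoImplicit false
set_option linter.overlappingInstances false
set_option linter.unusedSectionVars false

open FF IntermediateField

namespace Pool.Agent.H583_U

open Pool.Agent.W602.GT Pool.Agent.H583_GQ
open Pool.Agent.H583_GP (Branch)

theorem eta_good_all : S_eta_good := fun _ _ _ _ P D hD u hu A hreg b f hf0 hfP hfA =>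
  eta_good P D hD u hu A hreg b f hf0 hfP hfA

variable {M : ℕ} {L : Type} [Field L] [Algebra ℂ L] {y : Fin (M + 1) → L}
  {N : ℕ} {p : Fin N → ℕ} {a : ∀ i, Fin (p i) → ℂ}
  {D : Set (MvPolynomial (Fin (M + 1)) ℂ)} {x : Fin N → L} {T : Set (∀ i, Fin (p i) → ℕ)}

/-- **Subvarieties.** -/
theorem good_strongly (ha : ∀ i, Function.Injective (a i)) (hF : Family a y D x T) (hy : y ≠ 0)
    (hgen : coords ℂ y = ⊤) (hT : Pool.Agent.H583_GQ.Good p T) : StronglyLog y D :=
  stronglyG levels_all eta_good_all ha hF hy hgen hT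

/-- total multiplicities -/
theorem good_of_sum (hp : ∀ i, 3 ≤ p i) (h : ∀ k ∈ T, k ≠ 0 →
    ∑ i, (p i : ℝ) / ((p i : ℝ) - 2) < ((∑ i, ∑ j, k i j : ℕ) : ℝ)) :
    Pool.Agent.H583_GQ.Good p T :=
  (strong_of_sum hp h).good

variable {r : ℕ} {B : Branch N r} {w : Fin r → L}

/-- **The complements of fibres in the covers.** -/
theorem covers_all (hC : B.Cover x w) (hN : 1 ≤ N) (hy : y ≠ 0) (hgen : coords ℂ y = ⊤)
    {O : ∀ i, Set (Fin (B.p i))} (hD : Fibres B.a y D x O) (hD0 : ¬ In D y)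
    (hW : Pool.Agent.H583_GQ.Wide B.p (AdmO B O)) :
    List.TFAE [LogGT y D N, StronglyLog y D, PseudoPicard y D, PseudoBrody y D, PseudoGm y D,
      ∀ i, 3 ≤ B.p i] := by
  have hF := cover_family hC.map hy hgen hD
  have h1 := (covers hC hN hy hgen hD hD0).1 hW
  tfae_have 1 ↔ 6 := h1.out 0 4
  tfae_have 3 ↔ 6 := h1.out 1 4
  tfae_have 4 ↔ 6 := h1.out 2 4
  tfae_have 5 ↔ 6 := h1.out 3 4
  tfae_have 6 → 2 := fun h => good_strongly B.inj hF hy hgen (hW.good h)
  tfae_have 2 → 1 := fun h => h.self hy hgen hD0 hN hC.trdeg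
  tfae_finish

end Pool.Agent.H583_U
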